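import Pool.Agent.Helper54.SZ.Defs

/-! The row SZP: from all scales to the Szpiro ratio. -/

namespace Pool.Agent.Helper12.SZ

open Pool.Agent.Helper54.SZ

theorem tele (n : ℕ) (hn : 1 ≤ n) (Y : ℕ) :
    (1 : ℝ) / n ≤ ∑ X ∈ Finset.Icc 1 Y, (if (n : ℝ) ≤ (X : ℝ) then 1 / (X : ℝ) ^ 2 else 0) +
      1 / ((Y : ℝ) + 1) := by
  have hn1 : (1 : ℝ) ≤ n := by exact_mod_cast hn
  induction Y with
  | zero =>
    have : (1 : ℝ) / n ≤ 1 := by
      rw [div_le_one (by linarith)]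
      exact hn1
    simpa using this
  | succ Y ih =>
    rw [Finset.sum_Icc_succ_top (by omega : 1 ≤ Y + 1)]
    have hY : (0 : ℝ) ≤ Y := Nat.cast_nonneg Y
    have hs : (0 : ℝ) ≤ ∑ X ∈ Finset.Icc 1 Y,
        (if (n : ℝ) ≤ (X : ℝ) then 1 / (X : ℝ) ^ 2 else 0) := by
      apply Finset.sum_nonneg
      intro X _
      split_ifs <;> positivity
    push_cast
    by_cases h : (n : ℝ) ≤ (Y : ℝ) + 1
    · rw [if_pos h]
      have h1 : 1 / ((Y : ℝ) + 1) ≤ 1 / ((Y : ℝ) + 1) ^ 2 + 1 / ((Y : ℝ) + 1 + 1) := by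
        rw [div_add_div _ _ (by positivity) (by positivity), div_le_div_iff₀ (by positivity)
          (by positivity)]
        nlinarith
      linarith
    · rw [if_neg h]
      have h2 : (Y : ℝ) + 1 + 1 ≤ n := by
        have h3 : ¬ n ≤ Y + 1 := by
          intro hc
          exact h (by exact_mod_cast hc)
        have h4 : Y + 1 + 1 ≤ n := by omega
        exact_mod_cast h4
      have h5 : (1 : ℝ) / n ≤ 1 / ((Y : ℝ) + 1 + 1) :=
        one_div_le_one_div_of_le (by positivity) h2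
      linarith

theorem sum_inv_sqrt (Y : ℕ) : ∑ X ∈ Finset.Icc 1 Y, 1 / √(X : ℝ) ≤ 2 * √(Y : ℝ) := by
  induction Y with
  | zero => simp
  | succ Y ih =>
    rw [Finset.sum_Icc_succ_top (by omega : 1 ≤ Y + 1)]
    have hb : 0 ≤ √(Y : ℝ) := Real.sqrt_nonneg _
    have ha : 0 < √((Y + 1 : ℕ) : ℝ) := Real.sqrt_pos.mpr (by positivity)
    have e1 : √((Y + 1 : ℕ) : ℝ) ^ 2 = (Y : ℝ) + 1 := by
      rw [Real.sq_sqrt (by positivity)]
      push_cast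
      ring
    have e2 : √(Y : ℝ) ^ 2 = (Y : ℝ) := Real.sq_sqrt (Nat.cast_nonneg Y)
    have hab : √(Y : ℝ) ≤ √((Y + 1 : ℕ) : ℝ) := Real.sqrt_le_sqrt (by push_cast; linarith)
    have h1 : 1 / √((Y + 1 : ℕ) : ℝ) ≤ 2 * (√((Y + 1 : ℕ) : ℝ) - √(Y : ℝ)) := by
      rw [div_le_iff₀ ha]
      nlinarith
    linarith

theorem SZP : ST_SZP := by
  intro c hc
  refine ⟨c / 2000, by positivity, ?_⟩
  intro e W Vf w n he hW hw hn hsum H
  set R := ∑ v ∈ Vf, w v / n v with hR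
  have hR0 : 0 ≤ R := Finset.sum_nonneg (fun v hv => div_nonneg (hw v hv) (Nat.cast_nonneg _))
  have hRW : R ≤ W := by
    refine le_trans (Finset.sum_le_sum (fun v hv => ?_)) hsum
    have h1 : (1 : ℝ) ≤ n v := by exact_mod_cast hn v hv
    exact div_le_self (hw v hv) h1
  rcases hR0.eq_or_lt with h0 | hRpos
  · rw [← h0]
    simp only [ne_eq, OfNat.ofNat_ne_zero, not_false_eq_true, zero_pow, mul_zero]
    positivity
  by_contra hcon
  push Not at hcon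
  obtain ⟨ρ, hρ0, hρ⟩ : ∃ ρ : ℝ, 0 < ρ ∧ R = ρ ^ 2 * W := by
    refine ⟨√(R / W), Real.sqrt_pos.mpr (by positivity), ?_⟩
    rw [Real.sq_sqrt (by positivity)]
    field_simp
  set Y := ⌈2 * W / R⌉₊ with hYdef
  have hY1 : 2 * W / R ≤ (Y : ℝ) := Nat.le_ceil _
  have hY2 : (Y : ℝ) ≤ 2 * W / R + 1 := (Nat.ceil_lt_add_one (by positivity)).le
  have hY3 : (Y : ℝ) * R ≤ 3 * W := by
    have : (Y : ℝ) * R ≤ (2 * W / R + 1) * R := by gcongr
    have e1 : (2 * W / R + 1) * R = 2 * W + R := by field_simp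
    linarith
  have hY4 : 2 * W ≤ Y * R := by rwa [div_le_iff₀ hRpos] at hY1
  have hYpos : (0 : ℝ) < Y := by
    by_contra hcc
    push Not at hcc
    have : (Y : ℝ) * R ≤ 0 := mul_nonpos_of_nonpos_of_nonneg hcc hR0
    linarith
  -- the bound for the counting function
  have hN : ∀ X ∈ Finset.Icc 1 Y, (∑ v ∈ Vf, w v * (if (n v : ℝ) ≤ (X : ℝ) then 1 / (X : ℝ) ^ 2
      else 0)) ≤ R * ρ / 10 * (1 / √(X : ℝ)) := by
    intro X hX
    rw [Finset.mem_Icc] at hX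
    have hX1 : (1 : ℝ) ≤ X := by exact_mod_cast hX.1
    have hXY : (X : ℝ) ≤ Y := by exact_mod_cast hX.2
    have hXpos : (0 : ℝ) < X := by linarith
    set N := ∑ v ∈ Vf.filter (fun v => (n v : ℝ) ≤ (X : ℝ)), w v with hNdef
    have hN0 : 0 ≤ N := Finset.sum_nonneg (fun v hv => hw v (Finset.mem_filter.mp hv).1)
    have e1 : (∑ v ∈ Vf, w v * (if (n v : ℝ) ≤ (X : ℝ) then 1 / (X : ℝ) ^ 2 else 0)) =
        N / (X : ℝ) ^ 2 := by
      rw [hNdef, Finset.sum_filter, Finset.sum_div]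
      apply Finset.sum_congr rfl
      intro v _
      split_ifs
      · ring
      · simp
    have h1 := H (X : ℝ) hX1
    rw [← hNdef] at h1
    obtain ⟨x, hx0, hx⟩ : ∃ x : ℝ, 0 < x ∧ (X : ℝ) = x ^ 2 := by
      refine ⟨√(X : ℝ), Real.sqrt_pos.mpr hXpos, ?_⟩
      rw [Real.sq_sqrt hXpos.le]
    have hsx : √(X : ℝ) = x := by
      rw [hx]
      exact Real.sqrt_sq hx0.le
    have hρx : ρ * x ≤ 2 := by
      have h2 : (X : ℝ) * R ≤ 3 * W := le_trans (by gcongr) hY3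
      rw [hρ, hx] at h2
      have h3 : (ρ * x) ^ 2 ≤ 3 := by
        have h4 : (ρ * x) ^ 2 * W ≤ 3 * W := by
          calc (ρ * x) ^ 2 * W = x ^ 2 * (ρ ^ 2 * W) := by ring
            _ ≤ 3 * W := h2
        exact le_of_mul_le_mul_right h4 hW
      nlinarith [mul_pos hρ0 hx0]
    -- cube
    have h5 : N ^ 3 * W ^ 2 ≤ R ^ 5 * (X : ℝ) ^ 5 / 2000 := by
      have h6 : c * (N ^ 3 * W ^ 2) ≤ c * (R ^ 5 * (X : ℝ) ^ 5 / 2000) := by
        calc c * (N ^ 3 * W ^ 2) = (c * N ^ 3) * W ^ 2 := by ring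
          _ ≤ (e * W ^ 2 * (X : ℝ) ^ 5) * W ^ 2 := by gcongr
          _ = (e * W ^ 4) * (X : ℝ) ^ 5 := by ring
          _ ≤ (c / 2000 * R ^ 5) * (X : ℝ) ^ 5 := by gcongr
          _ = c * (R ^ 5 * (X : ℝ) ^ 5 / 2000) := by ring
      exact le_of_mul_le_mul_left h6 hc
    have h7 : N ^ 3 ≤ (R * ρ * x ^ 3 / 10) ^ 3 := by
      have h8 : N ^ 3 * W ^ 2 ≤ (R * ρ * x ^ 3 / 10) ^ 3 * W ^ 2 := by
        calc N ^ 3 * W ^ 2 ≤ R ^ 5 * (X : ℝ) ^ 5 / 2000 := h5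
          _ = R ^ 3 * (ρ ^ 2 * W) ^ 2 * (x ^ 2) ^ 5 / 2000 := by rw [← hρ, ← hx]; ring
          _ = (R ^ 3 * ρ ^ 3 * x ^ 9 * W ^ 2 / 2000) * (ρ * x) := by ring
          _ ≤ (R ^ 3 * ρ ^ 3 * x ^ 9 * W ^ 2 / 2000) * 2 := by gcongr
          _ = (R * ρ * x ^ 3 / 10) ^ 3 * W ^ 2 := by ring
      exact le_of_mul_le_mul_right h8 (by positivity)
    have h9 : N ≤ R * ρ * x ^ 3 / 10 :=
      (pow_le_pow_iff_left₀ hN0 (by positivity) (by norm_num)).mp h7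
    rw [e1, hsx, hx, div_le_iff₀ (by positivity)]
    calc N ≤ R * ρ * x ^ 3 / 10 := h9
      _ = R * ρ / 10 * (1 / x) * (x ^ 2) ^ 2 := by field_simp
  -- summation
  have h10 : R ≤ ∑ X ∈ Finset.Icc 1 Y, (∑ v ∈ Vf, w v * (if (n v : ℝ) ≤ (X : ℝ) then
      1 / (X : ℝ) ^ 2 else 0)) + W / (Y + 1) := by
    calc R = ∑ v ∈ Vf, w v * (1 / (n v : ℝ)) := by
          rw [hR]
          apply Finset.sum_congr rfl
          intro v _
          ring
      _ ≤ ∑ v ∈ Vf, w v * (∑ X ∈ Finset.Icc 1 Y, (if (n v : ℝ) ≤ (X : ℝ) then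
          1 / (X : ℝ) ^ 2 else 0) + 1 / ((Y : ℝ) + 1)) := by
          apply Finset.sum_le_sum
          intro v hv
          exact mul_le_mul_of_nonneg_left (tele (n v) (hn v hv) Y) (hw v hv)
      _ = ∑ X ∈ Finset.Icc 1 Y, (∑ v ∈ Vf, w v * (if (n v : ℝ) ≤ (X : ℝ) then
          1 / (X : ℝ) ^ 2 else 0)) + (∑ v ∈ Vf, w v) / (Y + 1) := by
          rw [Finset.sum_comm, Finset.sum_div, ← Finset.sum_add_distrib]
          apply Finset.sum_congr rfl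
          intro v _
          rw [mul_add, Finset.mul_sum]
          ring
      _ ≤ _ := by gcongr
  have h11 : W / (Y + 1) ≤ R / 2 := by
    rw [div_le_div_iff₀ (by positivity) (by norm_num)]
    linarith
  have h12 := Finset.sum_le_sum hN
  rw [← Finset.mul_sum] at h12
  have h13 := sum_inv_sqrt Y
  have h14 : ρ * √(Y : ℝ) ≤ 2 := by
    have hs : √(Y : ℝ) ^ 2 = Y := Real.sq_sqrt hYpos.le
    have h15 : (ρ * √(Y : ℝ)) ^ 2 * W ≤ 3 * W := by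
      calc (ρ * √(Y : ℝ)) ^ 2 * W = √(Y : ℝ) ^ 2 * (ρ ^ 2 * W) := by ring
        _ = Y * R := by rw [hs, ← hρ]
        _ ≤ 3 * W := hY3
    have h16 : (ρ * √(Y : ℝ)) ^ 2 ≤ 3 := le_of_mul_le_mul_right h15 hW
    nlinarith [mul_pos hρ0 (Real.sqrt_pos.mpr hYpos)]
  have h17 : R * ρ / 10 * ∑ X ∈ Finset.Icc 1 Y, 1 / √(X : ℝ) ≤ R * (4 / 10) := by
    calc R * ρ / 10 * ∑ X ∈ Finset.Icc 1 Y, 1 / √(X : ℝ) ≤ R * ρ / 10 * (2 * √(Y : ℝ)) := by
          gcongr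
      _ = R * (2 / 10) * (ρ * √(Y : ℝ)) := by ring
      _ ≤ R * (2 / 10) * 2 := by gcongr
      _ = R * (4 / 10) := by ring
  linarith

end Pool.Agent.Helper12.SZ
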